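import Pool.Agent.V11196.Cosheaf.Defs

namespace Pool.Agent.V11196.Cosheaf

open CategoryTheory TopologicalSpace DirectSum

variable {X : TopCat.{0}} {G : Type} [AddCommGroup G]

/-- The precosheaf attached to a monotone family of subgroups of a fixed group. -/
def subFunctor (S : Opens X → AddSubgroup G) (hS : Monotone S) :
    Opens X ⥤ AddCommGrpCat.{0} where
  obj U := AddCommGrpCat.of (S U)
  map f := AddCommGrpCat.ofHom (AddSubgroup.inclusion (hS f.le))
  map_id _ := rfl
  map_comp _ _ := rfl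

open scoped Classical in
lemma dZero_of (A : Opens X ⥤ AddCommGrpCat.{0}) {ι : Type} (U : ι → Opens X) (i : ι)
    (x : A.obj (U i)) : dZero A U (DirectSum.of (fun i => (A.obj (U i) : Type)) i x) =
      (A.map (homOfLE (le_iSup U i))).hom x := by
  rw [dZero]
  exact DirectSum.toAddMonoid_of _ _ _

open scoped Classical in
lemma dOne_of (A : Opens X ⥤ AddCommGrpCat.{0}) {ι : Type} (U : ι → Opens X) (p : ι × ι)
    (x : A.obj (U p.1 ⊓ U p.2)) :
    dOne A U (DirectSum.of (fun p : ι × ι => (A.obj (U p.1 ⊓ U p.2) : Type)) p x) =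
      DirectSum.of (fun i => (A.obj (U i) : Type)) p.1
        ((A.map (homOfLE (inf_le_left : U p.1 ⊓ U p.2 ≤ U p.1))).hom x) -
      DirectSum.of (fun i => (A.obj (U i) : Type)) p.2
        ((A.map (homOfLE (inf_le_right : U p.1 ⊓ U p.2 ≤ U p.2))).hom x) := by
  rw [dOne]
  exact DirectSum.toAddMonoid_of _ _ _

lemma dZero_dOne (A : Opens X ⥤ AddCommGrpCat.{0}) {ι : Type} (U : ι → Opens X)
    (x : ⨁ p : ι × ι, A.obj (U p.1 ⊓ U p.2)) : dZero A U (dOne A U x) = 0 := by
  classical
  induction x using DirectSum.induction_on with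
  | zero => simp
  | of p x =>
    rw [dOne_of, map_sub, dZero_of, dZero_of, sub_eq_zero]
    rw [← AddCommGrpCat.comp_apply, ← AddCommGrpCat.comp_apply, ← A.map_comp, ← A.map_comp]
    rfl
  | add x y hx hy => rw [map_add, map_add, hx, hy, add_zero]

/-- A contracting homotopy. -/
theorem exact_of_homotopy (A : Opens X ⥤ AddCommGrpCat.{0}) {ι : Type} (V : ι → Opens X) (j l : ι)
    (pP : ∀ i, A.obj (V i) →+ A.obj (V i ⊓ V j)) (qQ : ∀ i, A.obj (V i) →+ A.obj (V i ⊓ V l))
    (pU : A.obj (⨆ i, V i) →+ A.obj (V j)) (qU : A.obj (⨆ i, V i) →+ A.obj (V l))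
    (h1 : ∀ i x, (A.map (homOfLE (inf_le_left : V i ⊓ V j ≤ V i))).hom (pP i x) +
      (A.map (homOfLE (inf_le_left : V i ⊓ V l ≤ V i))).hom (qQ i x) = x)
    (h2 : ∀ i x, pU ((A.map (homOfLE (le_iSup V i))).hom x) =
      (A.map (homOfLE (inf_le_right : V i ⊓ V j ≤ V j))).hom (pP i x))
    (h3 : ∀ i x, qU ((A.map (homOfLE (le_iSup V i))).hom x) =
      (A.map (homOfLE (inf_le_right : V i ⊓ V l ≤ V l))).hom (qQ i x))
    (h4 : ∀ x, (A.map (homOfLE (le_iSup V j))).hom (pU x) +
      (A.map (homOfLE (le_iSup V l))).hom (qU x) = x) :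
    Function.Exact (dOne A V) (dZero A V) ∧ Function.Surjective (dZero A V) := by
  classical
  let hom : (⨁ i, A.obj (V i)) →+ ⨁ r : ι × ι, A.obj (V r.1 ⊓ V r.2) :=
    DirectSum.toAddMonoid fun i =>
      (DirectSum.of (fun r : ι × ι => (A.obj (V r.1 ⊓ V r.2) : Type)) (i, j)).comp (pP i) +
      (DirectSum.of (fun r : ι × ι => (A.obj (V r.1 ⊓ V r.2) : Type)) (i, l)).comp (qQ i)
  have key : ∀ x : ⨁ i, A.obj (V i),
      dOne _ V (hom x) = x
        - DirectSum.of (fun i => (A.obj (V i) : Type)) j (pU (dZero _ V x))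
        - DirectSum.of (fun i => (A.obj (V i) : Type)) l (qU (dZero _ V x)) := by
    intro x
    induction x using DirectSum.induction_on with
    | zero => simp
    | of i x =>
      have e1 : hom (DirectSum.of (fun i => (A.obj (V i) : Type)) i x) =
          DirectSum.of (fun r : ι × ι => (A.obj (V r.1 ⊓ V r.2) : Type)) (i, j) (pP i x) +
          DirectSum.of (fun r : ι × ι => (A.obj (V r.1 ⊓ V r.2) : Type)) (i, l) (qQ i x) :=
        DirectSum.toAddMonoid_of _ _ _
      rw [e1, map_add, dOne_of, dOne_of, dZero_of]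
      conv_rhs => rw [← h1 i x]
      rw [map_add, h1 i x, h2, h3]
      abel
    | add x y hx hy =>
      simp only [map_add, hx, hy]
      abel
  constructor
  · intro x
    constructor
    · intro hx
      refine ⟨hom x, ?_⟩
      rw [key, hx]
      simp
    · rintro ⟨y, rfl⟩
      exact dZero_dOne _ _ _
  · intro x
    refine ⟨DirectSum.of (fun i => (A.obj (V i) : Type)) j (pU x) +
      DirectSum.of (fun i => (A.obj (V i) : Type)) l (qU x), ?_⟩
    rw [map_add, dZero_of, dZero_of]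
    exact h4 x

/-- A criterion for `subFunctor` to be a cosheaf. -/
theorem isCosheaf_subFunctor (S : Opens X → AddSubgroup G) (hS : Monotone S)
    (h : ∀ (ι : Type) (V : ι → Opens X), S (⨆ i, V i) = ⊥ ∨ ∃ (j l : ι) (p q : G →+ G),
      (∀ g, p g + q g = g) ∧ (∀ W ≤ ⨆ i, V i, ∀ g ∈ S W, p g ∈ S (W ⊓ V j)) ∧
      (∀ W ≤ ⨆ i, V i, ∀ g ∈ S W, q g ∈ S (W ⊓ V l))) :
    IsCosheaf X (subFunctor S hS) := by
  classical
  intro ι V
  rcases h ι V with h0 | ⟨j, l, p, q, hpq, hp, hq⟩
  · have hz : ∀ U ≤ ⨆ i, V i, ∀ x : (subFunctor S hS).obj U, x = 0 := by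
      intro U hU x
      have h1 : (x : S U).1 ∈ S (⨆ i, V i) := hS hU (x : S U).2
      rw [h0, AddSubgroup.mem_bot] at h1
      exact Subtype.ext h1
    have hz1 : ∀ x : ⨁ i, (subFunctor S hS).obj (V i), x = 0 := by
      intro x
      induction x using DirectSum.induction_on with
      | zero => rfl
      | of i x => rw [hz _ (le_iSup V i) x, map_zero]
      | add x y hx hy => rw [hx, hy, add_zero]
    constructor
    · intro x
      constructor
      · intro _
        exact ⟨0, by rw [map_zero, hz1 x]⟩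
      · rintro ⟨y, rfl⟩
        exact dZero_dOne _ _ _
    · intro x
      exact ⟨0, by rw [map_zero, hz _ le_rfl x]⟩
  · have hpi : ∀ i, ∀ g ∈ S (V i), p g ∈ S (V i ⊓ V j) := fun i => hp _ (le_iSup V i)
    have hqi : ∀ i, ∀ g ∈ S (V i), q g ∈ S (V i ⊓ V l) := fun i => hq _ (le_iSup V i)
    let pP : ∀ i, S (V i) →+ S (V i ⊓ V j) := fun i =>
      (p.comp (S (V i)).subtype).codRestrict _ (fun g => hpi i g.1 g.2)
    let qQ : ∀ i, S (V i) →+ S (V i ⊓ V l) := fun i =>
      (q.comp (S (V i)).subtype).codRestrict _ (fun g => hqi i g.1 g.2)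
    let pU : S (⨆ i, V i) →+ S (V j) :=
      (p.comp (S (⨆ i, V i)).subtype).codRestrict _
        (fun g => hS inf_le_right (hp _ le_rfl g.1 g.2))
    let qU : S (⨆ i, V i) →+ S (V l) :=
      (q.comp (S (⨆ i, V i)).subtype).codRestrict _
        (fun g => hS inf_le_right (hq _ le_rfl g.1 g.2))
    refine exact_of_homotopy (subFunctor S hS) V j l pP qQ pU qU ?_ ?_ ?_ ?_
    · intro i x
      exact Subtype.ext (hpq (x : S (V i)).1)
    · intro i x
      rfl
    · intro i x
      rfl
    · intro x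
      exact Subtype.ext (hpq (x : S (⨆ i, V i)).1)

end Pool.Agent.V11196.Cosheaf
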