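import Mathlib

/-!
# Cosheaves of abelian groups on a topological space
-/

namespace Pool.Agent.V11196.Cosheaf

open CategoryTheory TopologicalSpace DirectSum

open scoped Classical in
/-- The map `⨁ A(U i) → A(⋃ U i)` induced by the inclusions `U i ⊆ ⋃ U i`. -/
noncomputable def dZero {X : TopCat.{0}} (A : Opens X ⥤ AddCommGrpCat.{0}) {ι : Type}
    (U : ι → Opens X) : (⨁ i, A.obj (U i)) →+ A.obj (⨆ i, U i) :=
  DirectSum.toAddMonoid fun i => (A.map (homOfLE (le_iSup U i))).hom

open scoped Classical in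
/-- The map `⨁ A(U i ∩ U j) → ⨁ A(U i)`: the difference of the two maps induced by
`U i ∩ U j ⊆ U i` and `U i ∩ U j ⊆ U j`. -/
noncomputable def dOne {X : TopCat.{0}} (A : Opens X ⥤ AddCommGrpCat.{0}) {ι : Type}
    (U : ι → Opens X) : (⨁ p : ι × ι, A.obj (U p.1 ⊓ U p.2)) →+ ⨁ i, A.obj (U i) :=
  DirectSum.toAddMonoid fun p =>
    (DirectSum.of (fun i => (A.obj (U i) : Type)) p.1).comp
        (A.map (homOfLE (inf_le_left : U p.1 ⊓ U p.2 ≤ U p.1))).hom -
      (DirectSum.of (fun i => (A.obj (U i) : Type)) p.2).comp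
        (A.map (homOfLE (inf_le_right : U p.1 ⊓ U p.2 ≤ U p.2))).hom

/-- A precosheaf `A` of abelian groups on `X` is a cosheaf if for every family `U` of open sets
(with union `⋃ U i`) the sequence `⨁ A(U i ∩ U j) → ⨁ A(U i) → A(⋃ U i) → 0` is exact. -/
def IsCosheaf (X : TopCat.{0}) : ObjectProperty (Opens X ⥤ AddCommGrpCat.{0}) := fun A =>
  ∀ (ι : Type) (U : ι → Opens X), Function.Exact (dOne A U) (dZero A U) ∧
    Function.Surjective (dZero A U)

/-- The category of cosheaves of abelian groups on `X`, a full subcategory of the category of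
precosheaves. -/
abbrev CS (X : TopCat.{0}) := (IsCosheaf X).FullSubcategory

end Pool.Agent.V11196.Cosheaf
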