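import Pool.Agent.V11196.Cosheaf.Criterion

namespace Pool.Agent.V11196.Cosheaf

open CategoryTheory TopologicalSpace DirectSum Limits

/-- Two copies of `ℕ`. -/
def XX : Type := ℕ ⊕ ℕ

/-- the points of the two copies -/
def ll (n : ℕ) : XX := Sum.inl n
def rr (n : ℕ) : XX := Sum.inr n

/-- The nonempty open sets are the unions of a tail of the first copy and a tail of the second. -/
def IsO (U : Set XX) : Prop :=
  (∀ n, ll n ∈ U → ll (n + 1) ∈ U) ∧ (∀ n, rr n ∈ U → rr (n + 1) ∈ U) ∧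
    ((∃ n, ll n ∈ U) ↔ ∃ n, rr n ∈ U)

lemma IsO.ll_mono {U : Set XX} (h : IsO U) {m n : ℕ} (hmn : m ≤ n) (hm : ll m ∈ U) : ll n ∈ U := by
  induction hmn with
  | refl => exact hm
  | step _ ih => exact h.1 _ ih

lemma IsO.rr_mono {U : Set XX} (h : IsO U) {m n : ℕ} (hmn : m ≤ n) (hm : rr m ∈ U) : rr n ∈ U := by
  induction hmn with
  | refl => exact hm
  | step _ ih => exact h.2.1 _ ih

instance : TopologicalSpace XX where
  IsOpen := IsO
  isOpen_univ := ⟨fun _ _ => trivial, fun _ _ => trivial, ⟨fun _ => ⟨0, trivial⟩, fun _ => ⟨0, trivial⟩⟩⟩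
  isOpen_inter := by
    intro U V hU hV
    refine ⟨fun n h => ⟨hU.1 n h.1, hV.1 n h.2⟩, fun n h => ⟨hU.2.1 n h.1, hV.2.1 n h.2⟩, ?_, ?_⟩
    · rintro ⟨n, h1, h2⟩
      obtain ⟨a, ha⟩ := hU.2.2.1 ⟨n, h1⟩
      obtain ⟨b, hb⟩ := hV.2.2.1 ⟨n, h2⟩
      exact ⟨max a b, hU.rr_mono (le_max_left _ _) ha, hV.rr_mono (le_max_right _ _) hb⟩
    · rintro ⟨n, h1, h2⟩
      obtain ⟨a, ha⟩ := hU.2.2.2 ⟨n, h1⟩
      obtain ⟨b, hb⟩ := hV.2.2.2 ⟨n, h2⟩
      exact ⟨max a b, hU.ll_mono (le_max_left _ _) ha, hV.ll_mono (le_max_right _ _) hb⟩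
  isOpen_sUnion := by
    intro s hs
    refine ⟨?_, ?_, ?_, ?_⟩
    · rintro n ⟨U, hU, h⟩
      exact ⟨U, hU, (hs U hU).1 n h⟩
    · rintro n ⟨U, hU, h⟩
      exact ⟨U, hU, (hs U hU).2.1 n h⟩
    · rintro ⟨n, U, hU, h⟩
      obtain ⟨m, hm⟩ := (hs U hU).2.2.1 ⟨n, h⟩
      exact ⟨m, U, hU, hm⟩
    · rintro ⟨n, U, hU, h⟩
      obtain ⟨m, hm⟩ := (hs U hU).2.2.2 ⟨n, h⟩
      exact ⟨m, U, hU, hm⟩

/-- The space. -/
abbrev XS : TopCat.{0} := TopCat.of XX

abbrev OX := Opens XX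

lemma isO (U : OX) : IsO (U : Set XX) := U.2

/-- `ll n ∈ U` -/
def inL (U : OX) (n : ℕ) : Prop := ll n ∈ (U : Set XX)
def inR (U : OX) (n : ℕ) : Prop := rr n ∈ (U : Set XX)

lemma inL_mono_set {U V : OX} (h : U ≤ V) {n : ℕ} (hn : inL U n) : inL V n := h hn
lemma inR_mono_set {U V : OX} (h : U ≤ V) {n : ℕ} (hn : inR U n) : inR V n := h hn
lemma inL_mono {U : OX} {m n : ℕ} (hmn : m ≤ n) (h : inL U m) : inL U n := (isO U).ll_mono hmn h
lemma inR_mono {U : OX} {m n : ℕ} (hmn : m ≤ n) (h : inR U m) : inR U n := (isO U).rr_mono hmn h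
lemma inL_inf {U V : OX} {n : ℕ} : inL (U ⊓ V) n ↔ inL U n ∧ inL V n := Iff.rfl
lemma inR_inf {U V : OX} {n : ℕ} : inR (U ⊓ V) n ↔ inR U n ∧ inR V n := Iff.rfl
lemma exists_iff (U : OX) : (∃ n, inL U n) ↔ ∃ n, inR U n := (isO U).2.2
lemma inL_iSup {ι : Type} {V : ι → OX} {n : ℕ} : inL (⨆ i, V i) n ↔ ∃ i, inL (V i) n :=
  Opens.mem_iSup
lemma inR_iSup {ι : Type} {V : ι → OX} {n : ℕ} : inR (⨆ i, V i) n ↔ ∃ i, inR (V i) n :=
  Opens.mem_iSup

abbrev G2 := (ℕ → ℤ) × (ℕ → ℤ)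

/-- The cosheaf `E`. -/
def SE (U : OX) : AddSubgroup G2 where
  carrier := {x | (∀ n, x.1 n ≠ 0 → inR U n) ∧ (∀ n, x.2 n ≠ 0 → inL U n) ∧
    ∃ M, ∀ n, M ≤ n → x.1 n + x.2 n = 0}
  zero_mem' := ⟨fun n h => absurd rfl h, fun n h => absurd rfl h, 0, fun n _ => by simp⟩
  add_mem' := by
    rintro x y ⟨hx1, hx2, M, hM⟩ ⟨hy1, hy2, N, hN⟩
    refine ⟨fun n h => ?_, fun n h => ?_, max M N, fun n hn => ?_⟩
    · by_contra hc
      have h1 : x.1 n = 0 := by_contra fun h' => hc (hx1 n h')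
      have h2 : y.1 n = 0 := by_contra fun h' => hc (hy1 n h')
      exact h (by simp [h1, h2])
    · by_contra hc
      have h1 : x.2 n = 0 := by_contra fun h' => hc (hx2 n h')
      have h2 : y.2 n = 0 := by_contra fun h' => hc (hy2 n h')
      exact h (by simp [h1, h2])
    · have h1 := hM n (le_trans (le_max_left _ _) hn)
      have h2 := hN n (le_trans (le_max_right _ _) hn)
      simp only [Prod.fst_add, Prod.snd_add, Pi.add_apply]
      linarith
  neg_mem' := by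
    rintro x ⟨hx1, hx2, M, hM⟩
    refine ⟨fun n h => hx1 n (by simpa using h), fun n h => hx2 n (by simpa using h), M,
      fun n hn => ?_⟩
    have h1 := hM n hn
    simp only [Prod.fst_neg, Prod.snd_neg, Pi.neg_apply]
    linarith

/-- The cosheaf `N₁`: the finitely supported elements of `E`. -/
def SN (U : OX) : AddSubgroup G2 where
  carrier := {x | (∀ n, x.1 n ≠ 0 → inR U n) ∧ (∀ n, x.2 n ≠ 0 → inL U n) ∧
    ∃ M, ∀ n, M ≤ n → x.1 n = 0 ∧ x.2 n = 0}
  zero_mem' := ⟨fun n h => absurd rfl h, fun n h => absurd rfl h, 0, fun n _ => by simp⟩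
  add_mem' := by
    rintro x y ⟨hx1, hx2, M, hM⟩ ⟨hy1, hy2, N, hN⟩
    refine ⟨fun n h => ?_, fun n h => ?_, max M N, fun n hn => ?_⟩
    · by_contra hc
      have h1 : x.1 n = 0 := by_contra fun h' => hc (hx1 n h')
      have h2 : y.1 n = 0 := by_contra fun h' => hc (hy1 n h')
      exact h (by simp [h1, h2])
    · by_contra hc
      have h1 : x.2 n = 0 := by_contra fun h' => hc (hx2 n h')
      have h2 : y.2 n = 0 := by_contra fun h' => hc (hy2 n h')
      exact h (by simp [h1, h2])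
    · have h1 := hM n (le_trans (le_max_left _ _) hn)
      have h2 := hN n (le_trans (le_max_right _ _) hn)
      simp [h1.1, h1.2, h2.1, h2.2]
  neg_mem' := by
    rintro x ⟨hx1, hx2, M, hM⟩
    refine ⟨fun n h => hx1 n (by simpa using h), fun n h => hx2 n (by simpa using h), M,
      fun n hn => ?_⟩
    have h1 := hM n hn
    simp [h1.1, h1.2]

/-- The cosheaf `N₂`. -/
def SB (U : OX) : AddSubgroup (ℕ → ℤ) where
  carrier := {x | (∀ n, x n ≠ 0 → ∃ m, inL U m) ∧ ∃ M, ∀ n, M ≤ n → x n = 0}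
  zero_mem' := ⟨fun n h => absurd rfl h, 0, fun n _ => rfl⟩
  add_mem' := by
    rintro x y ⟨hx1, M, hM⟩ ⟨hy1, N, hN⟩
    refine ⟨fun n h => ?_, max M N, fun n hn => ?_⟩
    · by_contra hc
      have h1 : x n = 0 := by_contra fun h' => hc (hx1 n h')
      have h2 : y n = 0 := by_contra fun h' => hc (hy1 n h')
      exact h (by simp [h1, h2])
    · have h1 := hM n (le_trans (le_max_left _ _) hn)
      have h2 := hN n (le_trans (le_max_right _ _) hn)
      simp [h1, h2]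
  neg_mem' := by
    rintro x ⟨hx1, M, hM⟩
    refine ⟨fun n h => hx1 n (by simpa using h), M, fun n hn => ?_⟩
    simp [hM n hn]

lemma SE_mono : Monotone SE := fun _ _ h _ hx =>
  ⟨fun n hn => inR_mono_set h (hx.1 n hn), fun n hn => inL_mono_set h (hx.2.1 n hn), hx.2.2⟩

lemma SN_mono : Monotone SN := fun _ _ h _ hx =>
  ⟨fun n hn => inR_mono_set h (hx.1 n hn), fun n hn => inL_mono_set h (hx.2.1 n hn), hx.2.2⟩

lemma SB_mono : Monotone SB := fun _ _ h _ hx =>
  ⟨fun n hn => by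
    obtain ⟨m, hm⟩ := hx.1 n hn
    exact ⟨m, inL_mono_set h hm⟩, hx.2⟩

open scoped Classical in
/-- truncation of the second coordinate: keep indices `≥ M` -/
noncomputable def pp (M : ℕ) : G2 →+ G2 where
  toFun x := (x.1, fun n => if M ≤ n then x.2 n else 0)
  map_zero' := by ext <;> simp
  map_add' x y := by
    refine Prod.ext rfl ?_
    ext n
    by_cases h : M ≤ n <;> simp [h]

open scoped Classical in
/-- the second coordinate restricted to indices `< M` -/
noncomputable def qq (M : ℕ) : G2 →+ G2 where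
  toFun x := (0, fun n => if M ≤ n then 0 else x.2 n)
  map_zero' := by ext <;> simp
  map_add' x y := by
    refine Prod.ext (by simp) ?_
    ext n
    by_cases h : M ≤ n <;> simp [h]

lemma pp_add_qq (M : ℕ) (x : G2) : pp M x + qq M x = x := by
  refine Prod.ext (by simp [pp, qq]) ?_
  ext n
  by_cases h : M ≤ n <;> simp [h, pp, qq]

/-- For each cover there are two members and a threshold. -/
lemma exists_cover {ι : Type} (V : ι → OX) : (∀ n, ¬ inL (⨆ i, V i) n) ∨ ∃ (j l : ι) (M : ℕ),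
    (∀ n, M ≤ n → inL (V j) n) ∧ (∀ n, inR (⨆ i, V i) n → inR (V j) n) ∧
    (∀ n, inL (⨆ i, V i) n → inL (V l) n) := by
  classical
  by_cases h : ∃ n, inL (⨆ i, V i) n
  · right
    have h' := (exists_iff _).1 h
    obtain ⟨l, hl⟩ := inL_iSup.1 (Nat.find_spec h)
    obtain ⟨j, hj⟩ := inR_iSup.1 (Nat.find_spec h')
    obtain ⟨M, hM⟩ := (exists_iff (V j)).2 ⟨_, hj⟩
    exact ⟨j, l, M, fun n hn => inL_mono hn hM, fun n hn => inR_mono (Nat.find_min' h' hn) hj,
      fun n hn => inL_mono (Nat.find_min' h hn) hl⟩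
  · left
    intro n hn
    exact h ⟨n, hn⟩

lemma isCosheaf_SE : IsCosheaf XS (subFunctor SE SE_mono) := by
  apply isCosheaf_subFunctor
  intro ι V
  rcases exists_cover V with h | ⟨j, l, M, hj1, hj2, hl⟩
  · left
    rw [eq_bot_iff]
    intro x hx
    rw [AddSubgroup.mem_bot]
    have hR : ∀ n, ¬ inR (⨆ i, V i) n := fun n hn => by
      obtain ⟨m, hm⟩ := (exists_iff _).2 ⟨n, hn⟩
      exact h m hm
    refine Prod.ext ?_ ?_
    · ext n
      by_contra hn
      exact hR n (hx.1 n hn)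
    · ext n
      by_contra hn
      exact h n (hx.2.1 n hn)
  · right
    refine ⟨j, l, pp M, qq M, pp_add_qq M, ?_, ?_⟩
    · rintro W hW x ⟨hx1, hx2, N, hN⟩
      refine ⟨fun n hn => ⟨hx1 n hn, hj2 n (inR_mono_set hW (hx1 n hn))⟩, fun n hn => ?_,
        max M N, fun n hn => ?_⟩
      · by_cases hMn : M ≤ n
        · have : (pp M x).2 n = x.2 n := by simp [pp, hMn]
          rw [this] at hn
          exact ⟨hx2 n hn, hj1 n hMn⟩
        · exfalso
          apply hn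
          simp [pp, hMn]
      · have h1 := hN n (le_trans (le_max_right _ _) hn)
        have h2 : M ≤ n := le_trans (le_max_left _ _) hn
        simp [pp, h2, h1]
    · rintro W hW x ⟨hx1, hx2, N, hN⟩
      refine ⟨fun n hn => absurd rfl hn, fun n hn => ?_, M, fun n hn => by simp [qq, hn]⟩
      by_cases hMn : M ≤ n
      · exfalso
        apply hn
        simp [qq, hMn]
      · have : (qq M x).2 n = x.2 n := by simp [qq, hMn]
        rw [this] at hn
        exact ⟨hx2 n hn, hl n (inL_mono_set hW (hx2 n hn))⟩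

lemma isCosheaf_SN : IsCosheaf XS (subFunctor SN SN_mono) := by
  apply isCosheaf_subFunctor
  intro ι V
  rcases exists_cover V with h | ⟨j, l, M, hj1, hj2, hl⟩
  · left
    rw [eq_bot_iff]
    intro x hx
    rw [AddSubgroup.mem_bot]
    have hR : ∀ n, ¬ inR (⨆ i, V i) n := fun n hn => by
      obtain ⟨m, hm⟩ := (exists_iff _).2 ⟨n, hn⟩
      exact h m hm
    refine Prod.ext ?_ ?_
    · ext n
      by_contra hn
      exact hR n (hx.1 n hn)
    · ext n
      by_contra hn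
      exact h n (hx.2.1 n hn)
  · right
    refine ⟨j, l, pp M, qq M, pp_add_qq M, ?_, ?_⟩
    · rintro W hW x ⟨hx1, hx2, N, hN⟩
      refine ⟨fun n hn => ⟨hx1 n hn, hj2 n (inR_mono_set hW (hx1 n hn))⟩, fun n hn => ?_,
        max M N, fun n hn => ?_⟩
      · by_cases hMn : M ≤ n
        · have : (pp M x).2 n = x.2 n := by simp [pp, hMn]
          rw [this] at hn
          exact ⟨hx2 n hn, hj1 n hMn⟩
        · exfalso
          apply hn
          simp [pp, hMn]
      · have h1 := hN n (le_trans (le_max_right _ _) hn)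
        have h2 : M ≤ n := le_trans (le_max_left _ _) hn
        simp [pp, h2, h1.1, h1.2]
    · rintro W hW x ⟨hx1, hx2, N, hN⟩
      refine ⟨fun n hn => absurd rfl hn, fun n hn => ?_, M, fun n hn => by simp [qq, hn]⟩
      by_cases hMn : M ≤ n
      · exfalso
        apply hn
        simp [qq, hMn]
      · have : (qq M x).2 n = x.2 n := by simp [qq, hMn]
        rw [this] at hn
        exact ⟨hx2 n hn, hl n (inL_mono_set hW (hx2 n hn))⟩

lemma isCosheaf_SB : IsCosheaf XS (subFunctor SB SB_mono) := by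
  apply isCosheaf_subFunctor
  intro ι V
  rcases exists_cover V with h | ⟨j, l, M, hj1, hj2, hl⟩
  · left
    rw [eq_bot_iff]
    intro x hx
    rw [AddSubgroup.mem_bot]
    ext n
    by_contra hn
    obtain ⟨m, hm⟩ := hx.1 n hn
    exact h m hm
  · right
    refine ⟨j, j, AddMonoidHom.id _, 0, fun g => by simp, ?_, fun W _ g _ => AddSubgroup.zero_mem _⟩
    rintro W hW x ⟨hx1, hx2⟩
    refine ⟨fun n hn => ?_, hx2⟩
    obtain ⟨m, hm⟩ := hx1 n hn
    exact ⟨max m M, inL_mono (le_max_left _ _) hm, hj1 _ (le_max_right _ _)⟩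

/-- The cosheaves as objects of `CS XS`. -/
def cE : CS XS := ⟨subFunctor SE SE_mono, isCosheaf_SE⟩
def cN : CS XS := ⟨subFunctor SN SN_mono, isCosheaf_SN⟩
def cB : CS XS := ⟨subFunctor SB SB_mono, isCosheaf_SB⟩

/-- the sum map on `G2` -/
def sumMap : G2 →+ (ℕ → ℤ) where
  toFun x := x.1 + x.2
  map_zero' := by simp
  map_add' x y := by
    simp only [Prod.fst_add, Prod.snd_add]
    abel

lemma sum_mem_E {U : OX} {x : G2} (hx : x ∈ SE U) : sumMap x ∈ SB U := by
  obtain ⟨h1, h2, M, hM⟩ := hx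
  refine ⟨fun n hn => ?_, M, hM⟩
  by_cases h : x.2 n = 0
  · have h' : x.1 n ≠ 0 := by
      intro h3
      apply hn
      simp [sumMap, h, h3]
    exact (exists_iff U).2 ⟨n, h1 n h'⟩
  · exact ⟨n, h2 n h⟩

lemma SN_le_SE (U : OX) : SN U ≤ SE U := by
  rintro x ⟨h1, h2, M, hM⟩
  exact ⟨h1, h2, M, fun n hn => by rw [(hM n hn).1, (hM n hn).2, add_zero]⟩

lemma sum_mem_N {U : OX} {x : G2} (hx : x ∈ SN U) : sumMap x ∈ SB U := sum_mem_E (SN_le_SE U hx)

/-- The three maps. -/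
def tMap : cE ⟶ cB := ObjectProperty.homMk
  { app := fun U => AddCommGrpCat.ofHom
      ((sumMap.comp (SE U).subtype).codRestrict (SB U) (fun x => sum_mem_E x.2))
    naturality := fun _ _ _ => rfl }

def fMap : cN ⟶ cB := ObjectProperty.homMk
  { app := fun U => AddCommGrpCat.ofHom
      ((sumMap.comp (SN U).subtype).codRestrict (SB U) (fun x => sum_mem_N x.2))
    naturality := fun _ _ _ => rfl }

def iMap : cN ⟶ cE := ObjectProperty.homMk
  { app := fun U => AddCommGrpCat.ofHom (AddSubgroup.inclusion (SN_le_SE U))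
    naturality := fun _ _ _ => rfl }

lemma iMap_tMap : iMap ≫ tMap = fMap := rfl

/-- The images of `t` and `f` agree. -/
lemma exists_preimage {U : OX} {x : G2} (hx : x ∈ SE U) : ∃ y ∈ SN U, sumMap y = sumMap x := by
  classical
  obtain ⟨h1, h2, M, hM⟩ := hx
  refine ⟨(fun n => if inR U n then x.1 n + x.2 n else 0, fun n => if inR U n then 0 else x.1 n + x.2 n),
    ⟨fun n hn => ?_, fun n hn => ?_, M, fun n hn => ?_⟩, ?_⟩
  · by_contra hc
    apply hn
    simp [hc]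
  · by_cases hc : inR U n
    · exfalso
      apply hn
      simp [hc]
    · have h3 : x.1 n = 0 := by_contra fun h => hc (h1 n h)
      apply h2 n
      intro h4
      apply hn
      simp [h3, h4]
  · have := hM n hn
    by_cases hc : inR U n <;> simp [hc, this]
  · ext n
    by_cases hc : inR U n <;> simp [hc, sumMap]

/-- Truncated opens. -/
def cutL (U : OX) (N : ℕ) : OX := ⟨{x | x ∈ (U : Set XX) ∧ ∀ n, x = ll n → N ≤ n}, by
  refine ⟨?_, ?_, ?_, ?_⟩
  · rintro n ⟨h1, h2⟩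
    refine ⟨(isO U).1 n h1, fun m hm => ?_⟩
    have h3 : n + 1 = m := Sum.inl.inj hm
    have := h2 n rfl
    omega
  · rintro n ⟨h1, h2⟩
    refine ⟨(isO U).2.1 n h1, fun m hm => ?_⟩
    cases hm
  · rintro ⟨n, h1, h2⟩
    obtain ⟨m, hm⟩ := (isO U).2.2.1 ⟨n, h1⟩
    exact ⟨m, hm, fun k hk => by cases hk⟩
  · rintro ⟨n, h1, h2⟩
    obtain ⟨m, hm⟩ := (isO U).2.2.2 ⟨n, h1⟩
    refine ⟨max m N, (isO U).ll_mono (le_max_left _ _) hm, fun k hk => ?_⟩
    have h3 : max m N = k := Sum.inl.inj hk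
    rw [← h3]
    exact le_max_right _ _⟩

def cutR (U : OX) (N : ℕ) : OX := ⟨{x | x ∈ (U : Set XX) ∧ ∀ n, x = rr n → N ≤ n}, by
  refine ⟨?_, ?_, ?_, ?_⟩
  · rintro n ⟨h1, h2⟩
    refine ⟨(isO U).1 n h1, fun m hm => ?_⟩
    cases hm
  · rintro n ⟨h1, h2⟩
    refine ⟨(isO U).2.1 n h1, fun m hm => ?_⟩
    have h3 : n + 1 = m := Sum.inr.inj hm
    have := h2 n rfl
    omega
  · rintro ⟨n, h1, h2⟩
    obtain ⟨m, hm⟩ := (isO U).2.2.1 ⟨n, h1⟩
    refine ⟨max m N, (isO U).rr_mono (le_max_left _ _) hm, fun k hk => ?_⟩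
    have h3 : max m N = k := Sum.inr.inj hk
    rw [← h3]
    exact le_max_right _ _
  · rintro ⟨n, h1, h2⟩
    obtain ⟨m, hm⟩ := (isO U).2.2.2 ⟨n, h1⟩
    exact ⟨m, hm, fun k hk => by cases hk⟩⟩

lemma inL_cutL {U : OX} {N n : ℕ} (h : inL (cutL U N) n) : N ≤ n := h.2 n rfl
lemma inR_cutR {U : OX} {N n : ℕ} (h : inR (cutR U N) n) : N ≤ n := h.2 n rfl

/-- The two element cover. -/
def cover (U : OX) (N : ℕ) : Bool → OX := fun b => if b then cutL U N else cutR U N

lemma iSup_cover (U : OX) (N : ℕ) : ⨆ b, cover U N b = U := by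
  apply le_antisymm
  · refine iSup_le fun b => ?_
    cases b
    · exact fun x hx => hx.1
    · exact fun x hx => hx.1
  · intro x hx
    rw [Opens.mem_iSup]
    rcases x with n | n
    · exact ⟨false, hx, fun k hk => by cases hk⟩
    · exact ⟨true, hx, fun k hk => by cases hk⟩

end Pool.Agent.V11196.Cosheaf
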