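import Pool.Agent.V11196.Cosheaf.Example

namespace Pool.Agent.V11196.Cosheaf

open CategoryTheory TopologicalSpace DirectSum Limits

/-- the value of a morphism of cosheaves on an open set -/
def ev {A B : CS XS} (f : A ⟶ B) (U : OX) : A.obj.obj U →+ B.obj.obj U := (f.hom.app U).hom

lemma ev_comp {A B C : CS XS} (f : A ⟶ B) (g : B ⟶ C) (U : OX) (x : A.obj.obj U) :
    ev (f ≫ g) U x = ev g U (ev f U x) := rfl

lemma ev_nat {A B : CS XS} (f : A ⟶ B) {U V : OX} (h : U ≤ V) (x : A.obj.obj U) :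
    ev f V ((A.obj.map (homOfLE h)).hom x) = (B.obj.map (homOfLE h)).hom (ev f U x) := by
  have := f.hom.naturality (homOfLE h)
  have h2 := congrArg (fun k => k.hom x) this
  exact h2

lemma hom_ext_ev {A B : CS XS} {f g : A ⟶ B} (h : ∀ U x, ev f U x = ev g U x) : f = g := by
  apply ObjectProperty.hom_ext
  ext U x
  exact h U x

/-- underlying element -/
def vN {U : OX} (x : cN.obj.obj U) : G2 := (x : SN U).1

lemma vN_mem {U : OX} (x : cN.obj.obj U) : vN x ∈ SN U := (x : SN U).2

lemma vN_add {U : OX} (x y : cN.obj.obj U) : vN (x + y) = vN x + vN y := rfl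

lemma vN_sub {U : OX} (x y : cN.obj.obj U) : vN (x - y) = vN x - vN y := rfl

lemma vN_map {U V : OX} (h : U ≤ V) (x : cN.obj.obj U) :
    vN ((cN.obj.map (homOfLE h)).hom x) = vN x := rfl

lemma dZero_of' {X : TopCat.{0}} (A : Opens X ⥤ AddCommGrpCat.{0}) {ι : Type}
    [inst : DecidableEq ι] (U : ι → Opens X) (i : ι)
    (x : A.obj (U i)) : dZero A U (DirectSum.of (fun i => (A.obj (U i) : Type)) i x) =
      (A.map (homOfLE (le_iSup U i))).hom x := by
  have : inst = (fun a b => Classical.propDecidable _) := Subsingleton.elim _ _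
  subst this
  exact dZero_of A U i x

/-- A section of a cosheaf over `U` is a sum of sections over the two members of the cover. -/
lemma exists_decomp (T : CS XS) (U : OX) (N : ℕ) (x : T.obj.obj U) :
    ∃ (hl : cutL U N ≤ U) (hr : cutR U N ≤ U) (y : T.obj.obj (cutL U N))
      (z : T.obj.obj (cutR U N)),
      x = (T.obj.map (homOfLE hl)).hom y + (T.obj.map (homOfLE hr)).hom z := by
  classical
  have hl : cutL U N ≤ U := fun x hx => hx.1
  have hr : cutR U N ≤ U := fun x hx => hx.1
  obtain ⟨w, hw⟩ := (T.property Bool (cover U N)).2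
    ((T.obj.map (homOfLE (le_of_eq (iSup_cover U N).symm))).hom x)
  have hb : ∀ b, cover U N b ≤ U := fun b => by
    cases b
    · exact hr
    · exact hl
  have key : ∀ w : ⨁ b, T.obj.obj (cover U N b), ∃ (y : T.obj.obj (cutL U N))
      (z : T.obj.obj (cutR U N)),
      (T.obj.map (homOfLE (le_of_eq (iSup_cover U N)))).hom (dZero T.obj (cover U N) w) =
        (T.obj.map (homOfLE hl)).hom y + (T.obj.map (homOfLE hr)).hom z := by
    intro w
    induction w using DirectSum.induction_on with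
    | zero => exact ⟨0, 0, by simp⟩
    | of b v =>
      have e : (T.obj.map (homOfLE (le_of_eq (iSup_cover U N)))).hom
          (dZero T.obj (cover U N) (DirectSum.of (fun b => (T.obj.obj (cover U N b) : Type)) b v)) =
          (T.obj.map (homOfLE (hb b))).hom v := by
        rw [dZero_of', ← AddCommGrpCat.comp_apply, ← T.obj.map_comp]
        rfl
      cases b
      · exact ⟨0, v, by rw [e, map_zero, zero_add]; rfl⟩
      · exact ⟨v, 0, by rw [e, map_zero, add_zero]; rfl⟩
    | add w1 w2 h1 h2 =>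
      obtain ⟨y1, z1, e1⟩ := h1
      obtain ⟨y2, z2, e2⟩ := h2
      refine ⟨y1 + y2, z1 + z2, ?_⟩
      rw [map_add, map_add, e1, e2, map_add, map_add]
      abel
  obtain ⟨y, z, e⟩ := key w
  refine ⟨hl, hr, y, z, ?_⟩
  rw [← e, hw, ← AddCommGrpCat.comp_apply, ← T.obj.map_comp]
  have : homOfLE (le_of_eq (iSup_cover U N).symm) ≫ homOfLE (le_of_eq (iSup_cover U N)) = 𝟙 U := rfl
  rw [this, T.obj.map_id]
  rfl

instance mono_fMap : Mono fMap := by
  constructor
  intro T g h hgh
  apply hom_ext_ev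
  -- the difference lies in the kernel
  have hker : ∀ (V : OX) (y : T.obj.obj V) (n : ℕ),
      (vN (ev g V y) - vN (ev h V y)).1 n + (vN (ev g V y) - vN (ev h V y)).2 n = 0 := by
    intro V y n
    have h1 : ev (g ≫ fMap) V y = ev (h ≫ fMap) V y := by rw [hgh]
    have h2 : sumMap (vN (ev g V y)) = sumMap (vN (ev h V y)) := congrArg Subtype.val h1
    have h3 := congrFun h2 n
    have h4 : (vN (ev g V y)).1 n + (vN (ev g V y)).2 n = (vN (ev h V y)).1 n + (vN (ev h V y)).2 n :=
      h3
    simp only [Prod.fst_sub, Prod.snd_sub, Pi.sub_apply]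
    linarith
  have hmem : ∀ (V : OX) (y : T.obj.obj V), vN (ev g V y) - vN (ev h V y) ∈ SN V := fun V y =>
    AddSubgroup.sub_mem _ (vN_mem _) (vN_mem _)
  -- a lower bound for the support
  have hsupp : ∀ (V : OX) (y : T.obj.obj V) (n : ℕ),
      ((vN (ev g V y) - vN (ev h V y)).1 n ≠ 0 ∨ (vN (ev g V y) - vN (ev h V y)).2 n ≠ 0) →
      inL V n ∧ inR V n := by
    intro V y n hn
    have h1 := hker V y n
    have h2 := hmem V y
    have h3 : (vN (ev g V y) - vN (ev h V y)).1 n ≠ 0 := by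
      rcases hn with hn | hn
      · exact hn
      · intro h0
        apply hn
        linarith
    have h4 : (vN (ev g V y) - vN (ev h V y)).2 n ≠ 0 := by
      intro h0
      apply h3
      linarith
    exact ⟨h2.2.1 n h4, h2.1 n h3⟩
  intro U x
  have hzero : ∀ n, (vN (ev g U x) - vN (ev h U x)).1 n = 0 ∧
      (vN (ev g U x) - vN (ev h U x)).2 n = 0 := by
    intro n
    obtain ⟨hl, hr, y, z, hx⟩ := exists_decomp T U (n + 1) x
    have e1 : vN (ev g U x) - vN (ev h U x) =
        (vN (ev g _ y) - vN (ev h _ y)) + (vN (ev g _ z) - vN (ev h _ z)) := by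
      rw [hx, map_add, map_add, vN_add, vN_add, ev_nat, ev_nat, ev_nat, ev_nat, vN_map, vN_map,
        vN_map, vN_map]
      abel
    have hy : ¬ ((vN (ev g _ y) - vN (ev h _ y)).1 n ≠ 0 ∨ (vN (ev g _ y) - vN (ev h _ y)).2 n ≠ 0) := by
      intro hn
      have := inL_cutL (hsupp _ y n hn).1
      omega
    have hz : ¬ ((vN (ev g _ z) - vN (ev h _ z)).1 n ≠ 0 ∨ (vN (ev g _ z) - vN (ev h _ z)).2 n ≠ 0) := by
      intro hn
      have := inR_cutR (hsupp _ z n hn).2
      omega
    push Not at hy hz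
    rw [e1]
    constructor
    · rw [Prod.fst_add, Pi.add_apply, hy.1, hz.1, add_zero]
    · rw [Prod.snd_add, Pi.add_apply, hy.2, hz.2, add_zero]
  apply Subtype.ext
  show vN (ev g U x) = vN (ev h U x)
  rw [← sub_eq_zero]
  refine Prod.ext ?_ ?_
  · ext n
    exact (hzero n).1
  · ext n
    exact (hzero n).2

/-- The element `(1, -1)` of `E` restricted to indices `≥ M`. -/
def el (M : ℕ) : G2 := (fun n => if M ≤ n then 1 else 0, fun n => if M ≤ n then -1 else 0)

/-- its complement -/
def el' (M : ℕ) : G2 := (fun n => if M ≤ n then 0 else 1, fun n => if M ≤ n then 0 else -1)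

lemma el_add (M : ℕ) : el M + el' M = el 0 := by
  refine Prod.ext ?_ ?_
  · ext n
    by_cases h : M ≤ n <;> simp [el, el', h]
  · ext n
    by_cases h : M ≤ n <;> simp [el, el', h]

/-- the open set of both tails -/
def tail (M : ℕ) : OX := cutL (cutR ⊤ M) M

lemma inL_tail {M n : ℕ} : inL (tail M) n ↔ M ≤ n := by
  constructor
  · intro h
    exact inL_cutL h
  · intro h
    refine ⟨⟨trivial, fun k hk => by cases hk⟩, fun k hk => ?_⟩
    have h3 : n = k := Sum.inl.inj hk
    omega

lemma inR_tail {M n : ℕ} : inR (tail M) n ↔ M ≤ n := by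
  constructor
  · intro h
    exact h.1.2 n rfl
  · intro h
    refine ⟨⟨trivial, fun k hk => ?_⟩, fun k hk => by cases hk⟩
    have h3 : n = k := Sum.inr.inj hk
    omega

lemma el_mem (M : ℕ) : el M ∈ SE (tail M) := by
  refine ⟨fun n hn => ?_, fun n hn => ?_, 0, fun n _ => ?_⟩
  · rw [inR_tail]
    by_contra h
    apply hn
    simp [el, h]
  · rw [inL_tail]
    by_contra h
    apply hn
    simp [el, h]
  · by_cases h : M ≤ n <;> simp [el, h]

lemma el'_mem (M : ℕ) : el' M ∈ SN (tail 0) := by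
  refine ⟨fun n _ => inR_tail.2 (Nat.zero_le _), fun n _ => inL_tail.2 (Nat.zero_le _), M,
    fun n hn => ?_⟩
  simp [el', hn]

/-- `N₁ → N₂` is not a normal monomorphism. -/
theorem no_section (s : cE ⟶ cN) (hs : s ≫ fMap = tMap) : False := by
  have h1 : iMap ≫ s = 𝟙 cN := by
    rw [← cancel_mono fMap, Category.assoc, hs, Category.id_comp, iMap_tMap]
  -- the image of `(1, -1)`
  have h0 : tail 0 ≤ tail 0 := le_rfl
  let e0 : cE.obj.obj (tail 0) := (⟨el 0, el_mem 0⟩ : SE (tail 0))
  obtain ⟨-, -, M, hM⟩ := vN_mem (ev s (tail 0) e0)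
  have hle : tail (M + 1) ≤ tail 0 := by
    intro x hx
    rcases x with n | n
    · exact inL_tail.2 (Nat.zero_le n)
    · exact inR_tail.2 (Nat.zero_le n)
  let eM : cE.obj.obj (tail (M + 1)) := (⟨el (M + 1), el_mem (M + 1)⟩ : SE (tail (M + 1)))
  let fM : cN.obj.obj (tail 0) := (⟨el' (M + 1), el'_mem (M + 1)⟩ : SN (tail 0))
  have hdec : e0 = (cE.obj.map (homOfLE hle)).hom eM + ev iMap (tail 0) fM :=
    Subtype.ext (el_add (M + 1)).symm
  have h2 : ev s (tail 0) (ev iMap (tail 0) fM) = fM := by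
    rw [← ev_comp, h1]
    rfl
  have h3 : vN (ev s (tail 0) e0) = vN (ev s (tail (M + 1)) eM) + el' (M + 1) := by
    rw [hdec, map_add, h2, ev_nat, vN_add, vN_map]
    rfl
  have h4 : (vN (ev s (tail (M + 1)) eM)).1 M = 0 := by
    by_contra hne
    have := inR_tail.1 ((vN_mem (ev s (tail (M + 1)) eM)).1 M hne)
    omega
  have h5 : (vN (ev s (tail 0) e0)).1 M = 0 := (hM M le_rfl).1
  rw [h3, Prod.fst_add, Pi.add_apply, h4] at h5
  simp [el'] at h5

theorem not_normal (h : NormalMono fMap) : False := by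
  have ht : tMap ≫ h.g = 0 := by
    have h1 : fMap ≫ h.g = fMap ≫ (0 : cB ⟶ h.Z) := by rw [h.w, comp_zero]
    have h2 : tMap ≫ h.g = tMap ≫ (0 : cB ⟶ h.Z) := by
      apply hom_ext_ev
      intro U x
      obtain ⟨y, hy, hxy⟩ := exists_preimage (x : SE U).2
      let y' : cN.obj.obj U := (⟨y, hy⟩ : SN U)
      have h3 : ev tMap U x = ev fMap U y' := Subtype.ext hxy.symm
      rw [ev_comp, ev_comp, h3, ← ev_comp, ← ev_comp, h1]
    rw [h2, comp_zero]
  obtain ⟨s, hs⟩ := NormalMono.lift' fMap tMap ht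
  exact no_section s hs

theorem not_abelian : IsEmpty (Abelian (CS XS)) := by
  refine ⟨fun h => ?_⟩
  obtain ⟨hn⟩ := Abelian.toIsNormalMonoCategory.normalMonoOfMono fMap
  have e : @Preadditive.preadditiveHasZeroMorphisms _ _ h.toPreadditive =
      (IsCosheaf XS).instHasZeroMorphismsFullSubcategory := Subsingleton.elim _ _
  rw [e] at hn
  exact not_normal hn

end Pool.Agent.V11196.Cosheaf
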